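import Mathlib

/-!
# A domination bicritical hypo-unique-domination graph

A cubic graph on eight vertices is both domination bicritical and hypo-UD.
-/

set_option autoImplicit false

namespace Pool.Agent.Results.MP_405fb9_co.CubicEight

/-- `D` is a dominating set of `G`: every vertex outside `D` has a neighbour in `D`. -/
def IsDominating {V : Type*} (G : SimpleGraph V) (D : Finset V) : Prop :=
  ∀ v, v ∉ D → ∃ u ∈ D, G.Adj v u

/-- The domination number: the least size of a dominating set. -/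
noncomputable def domNum {V : Type*} (G : SimpleGraph V) : ℕ :=
  sInf {m | ∃ D : Finset V, IsDominating G D ∧ D.card = m}

/-- `D` is a `γ`-set of `G`: a dominating set of size `γ(G)`. -/
def IsGammaSet {V : Type*} (G : SimpleGraph V) (D : Finset V) : Prop :=
  IsDominating G D ∧ D.card = domNum G

/-- `G` is hypo-UD: it has two distinct `γ`-sets, but every vertex-deleted subgraph has exactly
one `γ`-set. -/
def IsHypoUD {V : Type*} (G : SimpleGraph V) : Prop :=
  (∃ D₁ D₂ : Finset V, D₁ ≠ D₂ ∧ IsGammaSet G D₁ ∧ IsGammaSet G D₂) ∧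
    ∀ v : V, ∃! D : Finset ↥{w : V | w ≠ v}, IsGammaSet (G.induce {w : V | w ≠ v}) D

/-- `G` is domination bicritical: deleting any two vertices lowers the domination number. -/
def IsBicritical {V : Type*} (G : SimpleGraph V) : Prop :=
  ∀ S : Finset V, S.card = 2 → domNum (G.induce {w : V | w ∉ S}) < domNum G

/-- Edge list. -/
def edges : List (Fin 8 × Fin 8) :=
  [(0, 5), (0, 6), (0, 7), (1, 4), (1, 6), (1, 7), (2, 3), (2, 5), (2, 7), (3, 4), (3, 6), (4, 5)]

/-- The graph. -/
def G : SimpleGraph (Fin 8) := SimpleGraph.fromRel (fun a b => (a, b) ∈ edges)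

instance : DecidableRel G.Adj := by
  intro a b
  unfold G
  rw [SimpleGraph.fromRel_adj]
  infer_instance

/-- `D` is a dominating set of the subgraph induced by `P`. -/
def RD (P D : Finset (Fin 8)) : Prop := D ⊆ P ∧ ∀ v ∈ P, v ∉ D → ∃ u ∈ D, G.Adj v u

instance (P D : Finset (Fin 8)) : Decidable (RD P D) := by
  unfold RD
  infer_instance

instance (D : Finset (Fin 8)) : Decidable (IsDominating G D) := by
  unfold IsDominating
  infer_instance

lemma rd_of {s : Set (Fin 8)} {P : Finset (Fin 8)} (hP : ∀ w, w ∈ P ↔ w ∈ s) (D : Finset ↥s) :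
    IsDominating (G.induce s) D ↔ RD P (D.map (Function.Embedding.subtype (· ∈ s))) := by
  constructor
  · intro h
    refine ⟨?_, ?_⟩
    · intro w hw
      obtain ⟨x, _, rfl⟩ := Finset.mem_map.1 hw
      exact (hP _).2 x.2
    · intro v hv hvD
      obtain ⟨u, hu, hadj⟩ := h ⟨v, (hP v).1 hv⟩
        (fun hc => hvD (Finset.mem_map.2 ⟨_, hc, rfl⟩))
      exact ⟨u.1, Finset.mem_map.2 ⟨u, hu, rfl⟩, hadj⟩
  · rintro ⟨_, h⟩ v hv
    obtain ⟨u, hu, hadj⟩ := h v.1 ((hP _).2 v.2) (fun hc => by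
      obtain ⟨x, hx, hxv⟩ := Finset.mem_map.1 hc
      exact hv (by rwa [← show x = v from Subtype.ext hxv]))
    obtain ⟨x, hx, rfl⟩ := Finset.mem_map.1 hu
    exact ⟨x, hx, hadj⟩

lemma exists_map {s : Set (Fin 8)} {P : Finset (Fin 8)} (hP : ∀ w, w ∈ P ↔ w ∈ s)
    {E : Finset (Fin 8)} (hE : E ⊆ P) :
    ∃ D : Finset ↥s, D.map (Function.Embedding.subtype (· ∈ s)) = E := by
  classical
  refine ⟨E.subtype (· ∈ s), ?_⟩
  rw [Finset.subtype_map]
  exact Finset.filter_true_of_mem (fun x hx => (hP x).1 (hE hx))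

lemma domNum_eq {V : Type*} (H : SimpleGraph V) (k : ℕ) (D : Finset V) (hD : IsDominating H D)
    (hk : D.card = k) (hmin : ∀ E : Finset V, IsDominating H E → k ≤ E.card) : domNum H = k := by
  have hne : {m | ∃ D : Finset V, IsDominating H D ∧ D.card = m}.Nonempty := ⟨k, D, hD, hk⟩
  apply le_antisymm
  · exact Nat.sInf_le ⟨D, hD, hk⟩
  · obtain ⟨E, hE, hc⟩ := Nat.sInf_mem hne
    unfold domNum
    rw [← hc]
    exact hmin E hE

lemma domNum_le {V : Type*} (H : SimpleGraph V) (D : Finset V) (hD : IsDominating H D) :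
    domNum H ≤ D.card := Nat.sInf_le ⟨D, hD, rfl⟩

lemma min3 : ∀ E : Finset (Fin 8), IsDominating G E → 3 ≤ E.card := by decide +kernel

lemma dom3 : domNum G = 3 :=
  domNum_eq G 3 {0, 1, 2} (by decide +kernel) (by decide) min3

/-- The unique `γ`-set of `G - v`. -/
def tab : Fin 8 → Finset (Fin 8)
  | 0 => {1, 2}
  | 1 => {0, 3}
  | 2 => {0, 4}
  | 3 => {1, 5}
  | 4 => {2, 6}
  | 5 => {3, 7}
  | 6 => {4, 7}
  | 7 => {5, 6}

lemma tab_spec : ∀ v : Fin 8, RD (Finset.univ.erase v) (tab v) ∧ (tab v).card = 2 ∧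
    ∀ E : Finset (Fin 8), RD (Finset.univ.erase v) E → 2 ≤ E.card ∧ (E.card = 2 → E = tab v) := by
  decide +kernel

lemma hypoUD : IsHypoUD G := by
  refine ⟨⟨{0, 1, 2}, {0, 1, 3}, by decide, ⟨by decide +kernel, ?_⟩, ⟨by decide +kernel, ?_⟩⟩, ?_⟩
  · rw [dom3]; decide
  · rw [dom3]; decide
  · intro v
    obtain ⟨h1, h2, h3⟩ := tab_spec v
    have hP : ∀ w, w ∈ Finset.univ.erase v ↔ w ∈ {w : Fin 8 | w ≠ v} := by
      intro w
      rw [Finset.mem_erase]
      exact ⟨fun h => h.1, fun h => ⟨h, Finset.mem_univ w⟩⟩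
    obtain ⟨D, hD⟩ := exists_map hP h1.1
    have hdom : IsDominating (G.induce {w : Fin 8 | w ≠ v}) D := (rd_of hP D).2 (by rw [hD]; exact h1)
    have hcard : D.card = 2 := by
      rw [← h2, ← hD, Finset.card_map]
    have hnum : domNum (G.induce {w : Fin 8 | w ≠ v}) = 2 := by
      apply domNum_eq _ 2 D hdom hcard
      intro E hE
      have := (h3 _ ((rd_of hP E).1 hE)).1
      rwa [Finset.card_map] at this
    refine ⟨D, ⟨hdom, by rw [hcard, hnum]⟩, ?_⟩
    rintro E ⟨hE, hEc⟩
    have h4 := (h3 _ ((rd_of hP E).1 hE)).2 (by rw [Finset.card_map, hEc, hnum])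
    rw [← hD] at h4
    exact Finset.map_injective _ h4

lemma bicrit_fin : ∀ u v : Fin 8, u ≠ v → ∃ a b : Fin 8,
    RD ((Finset.univ.erase u).erase v) {a, b} := by
  decide +kernel

lemma bicritical : IsBicritical G := by
  intro S hS
  obtain ⟨u, v, huv, rfl⟩ := Finset.card_eq_two.1 hS
  obtain ⟨a, b, hab⟩ := bicrit_fin u v huv
  have hP : ∀ w, w ∈ (Finset.univ.erase u).erase v ↔ w ∈ {w : Fin 8 | w ∉ ({u, v} : Finset (Fin 8))} := by
    intro w
    rw [Finset.mem_erase, Finset.mem_erase]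
    constructor
    · rintro ⟨h1, h2, _⟩ h3
      rcases Finset.mem_insert.1 h3 with h | h
      · exact h2 h
      · exact h1 (Finset.mem_singleton.1 h)
    · intro h
      refine ⟨fun hc => h ?_, fun hc => h ?_, Finset.mem_univ w⟩
      · rw [hc]; exact Finset.mem_insert_of_mem (Finset.mem_singleton_self v)
      · rw [hc]; exact Finset.mem_insert_self u _
  obtain ⟨D, hD⟩ := exists_map hP hab.1
  have hdom : IsDominating (G.induce {w : Fin 8 | w ∉ ({u, v} : Finset (Fin 8))}) D :=
    (rd_of hP D).2 (by rw [hD]; exact hab)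
  have h1 := domNum_le _ D hdom
  have h2 : D.card ≤ 2 := by
    rw [← Finset.card_map (Function.Embedding.subtype (· ∈ {w : Fin 8 | w ∉ ({u, v} : Finset (Fin 8))})),
      hD]
    exact Finset.card_le_two
  rw [dom3]
  omega

/-- There is a graph with at least three vertices (a cubic graph on eight vertices) that is both
domination bicritical and hypo-UD. -/
theorem result : ∃ H : SimpleGraph (Fin 8), IsBicritical H ∧ IsHypoUD H :=
  ⟨G, bicritical, hypoUD⟩

end Pool.Agent.Results.MP_405fb9_co.CubicEight
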